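import Pool.Agent.T2h61.FL.Stm
import Pool.Agent.R941.FJ.Hyper

/-!
# Automorphisms which preserve a flag of subalgebras
-/

set_option autoImplicit false

namespace Pool.Agent.T2h61.FL

open MvPolynomial
open Pool.Agent.Y110.FJ (ClosedE)

variable {C : ∀ (G : Type) [Group G], Prop}

theorem derived_inj {G G' : Type} [Group G] [Group G'] (f : G →* G') (hf : Function.Injective f)
    (n : ℕ) (h : derivedSeries G' n = ⊥) : derivedSeries G n = ⊥ := by
  rw [eq_bot_iff]
  intro x hx
  have h1 : f x ∈ derivedSeries G' n := map_derivedSeries_le_derivedSeries f n ⟨x, hx, rfl⟩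
  rw [h, Subgroup.mem_bot] at h1
  rw [Subgroup.mem_bot]
  exact hf (by rw [h1, map_one])

/-- groups which preserve a flag of subalgebras -/
theorem flag (hSVX : S_SVX) (hFLK : S_FLK) (hFLR : S_FLR) (hC : ClosedE C)
    (hM : ∀ (G : Type) [Group G], derivedSeries G 2 = ⊥ → C G) (R : Type) [CommRing R] [IsDomain R]
    (hR : C (MvPolynomial (Fin 2) R ≃ₐ[R] MvPolynomial (Fin 2) R)) (n : ℕ)
    (H : Subgroup (MvPolynomial (Fin (n + 2)) R ≃ₐ[R] MvPolynomial (Fin (n + 2)) R))
    (hH : ∀ h ∈ H, ∀ i : ℕ, i ≤ n → ∀ j : Fin (n + 2), i ≤ (j : ℕ) →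
      h (X j) ∈ Algebra.adjoin R (X '' {l : Fin (n + 2) | i ≤ (l : ℕ)})) : C H := by
  induction n with
  | zero => exact hC.base.of_injective _ _ H.subtype H.subtype_injective hR
  | succ n ih =>
    obtain ⟨r, h1, f, hf⟩ := hFLR R (n + 2) H fun h hh j =>
      hH h hh 1 (by omega) j.succ (by simp)
    have h2 : C r.range := by
      refine ih r.range ?_
      rintro _ ⟨h, rfl⟩ i hi j hj
      have h3 := hH h h.2 (i + 1) (by omega) j.succ (by simpa using hj)
      have h4 := h1 h (X j)
      rw [rename_X] at h4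
      rw [← h4] at h3
      have h5 : (X '' {l : Fin (n + 1 + 2) | i + 1 ≤ (l : ℕ)} : Set (MvPolynomial (Fin (n + 1 + 2)) R)) =
          (rename Fin.succ : MvPolynomial (Fin (n + 2)) R →ₐ[R] _) ''
            (X '' {l : Fin (n + 2) | i ≤ (l : ℕ)}) := by
        ext x
        constructor
        · rintro ⟨l, hl, rfl⟩
          have hl' : i + 1 ≤ (l : ℕ) := hl
          obtain ⟨m, rfl⟩ : ∃ m : Fin (n + 2), m.succ = l := Fin.exists_succ_eq.2 (by
            intro h0
            rw [h0] at hl'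
            simp at hl')
          refine ⟨X m, ⟨m, ?_, rfl⟩, rename_X _ _⟩
          show i ≤ (m : ℕ)
          rw [Fin.val_succ] at hl'
          omega
        · rintro ⟨_, ⟨m, hm, rfl⟩, rfl⟩
          have hm' : i ≤ (m : ℕ) := hm
          refine ⟨m.succ, ?_, (rename_X _ _).symm⟩
          show i + 1 ≤ ((m.succ : Fin (n + 1 + 2)) : ℕ)
          rw [Fin.val_succ]
          omega
      rw [h5, ← AlgHom.map_adjoin] at h3
      obtain ⟨u, hu, hu'⟩ := h3
      have h6 : u = r h (X j) := rename_injective _ (Fin.succ_injective _) hu'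
      rw [← h6]
      exact hu
    refine hSVX C hC hM H r.range r.rangeRestrict h2 ⟨2, ?_⟩
    rw [MonoidHom.ker_rangeRestrict]
    exact derived_inj f hf 2 (hFLK _)

end Pool.Agent.T2h61.FL
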