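import Pool.Agent.T2h61.FL.Stm

/-!
# Project FL, task FLK (helper67): the automorphisms of `B[z]` over a domain `B`
-/

set_option autoImplicit false

namespace Pool.Agent.T2h61.FL.FLK

open Polynomial
open scoped commutatorElement

variable {B : Type} [CommRing B]

theorem apply_comp (φ : B[X] ≃ₐ[B] B[X]) (p : B[X]) : φ p = p.comp (φ X) := by
  have h := Polynomial.aeval_algHom_apply (φ : B[X] →ₐ[B] B[X]) X p
  rw [Polynomial.aeval_X_left_apply] at h
  exact h.symm

theorem apply_C (φ : B[X] ≃ₐ[B] B[X]) (b : B) : φ (C b) = C b := by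
  rw [apply_comp, C_comp]

theorem form [IsDomain B] (φ : B[X] ≃ₐ[B] B[X]) : ∃ u b : B, u ≠ 0 ∧ φ X = C u * X + C b := by
  have h1 : (φ⁻¹ X).comp (φ X) = X := by
    rw [← apply_comp]
    exact φ.apply_symm_apply X
  have h2 := congrArg natDegree h1
  rw [natDegree_comp, natDegree_X] at h2
  have h3 : (φ X).natDegree = 1 := Nat.eq_one_of_mul_eq_one_left h2
  obtain ⟨a, ha, b, hb⟩ := natDegree_eq_one.1 h3
  exact ⟨a, b, ha, hb.symm⟩

/-- the translations -/
def tr (B : Type) [CommRing B] : Subgroup (B[X] ≃ₐ[B] B[X]) where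
  carrier := {φ | ∃ b : B, φ X = X + C b}
  one_mem' := ⟨0, by simp⟩
  mul_mem' := by
    rintro φ ψ ⟨b, hb⟩ ⟨c, hc⟩
    refine ⟨b + c, ?_⟩
    rw [AlgEquiv.mul_apply, hc, map_add, apply_C, hb, C_add]
    ring
  inv_mem' := by
    rintro φ ⟨b, hb⟩
    refine ⟨-b, ?_⟩
    apply φ.injective
    have h1 : φ (φ⁻¹ X) = X := φ.apply_symm_apply X
    rw [h1, map_add, apply_C, hb, C_neg]
    ring

theorem t_FLK : S_FLK := by
  intro B _ _
  refine Pool.Agent.N509.TK.metab (tr B) ?_ ?_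
  · rintro φ ⟨b, hb⟩ ψ ⟨c, hc⟩
    have h : (φ * ψ) X = (ψ * φ) X := by
      rw [AlgEquiv.mul_apply, AlgEquiv.mul_apply, hb, hc, map_add, map_add, apply_C, apply_C, hb, hc]
      ring
    apply AlgEquiv.ext
    intro p
    rw [apply_comp, h, ← apply_comp]
  · intro φ ψ
    obtain ⟨u, b, hu, hb⟩ := form φ
    obtain ⟨v, c, hv, hc⟩ := form ψ
    obtain ⟨a, d, _, hd⟩ := form ⁅φ, ψ⁆
    have h1 : ⁅φ, ψ⁆ * (ψ * φ) = φ * ψ := by
      rw [commutatorElement_def]
      group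
    have h2 : (⁅φ, ψ⁆ * (ψ * φ)) X = (φ * ψ) X := by rw [h1]
    rw [AlgEquiv.mul_apply, AlgEquiv.mul_apply, AlgEquiv.mul_apply, hb, hc] at h2
    simp only [map_add, map_mul, apply_C, hb, hc, hd] at h2
    have h3 := congrArg (fun p => coeff p 1) h2
    simp only [coeff_add, coeff_C_mul, coeff_X_one, coeff_C_succ, mul_one, add_zero] at h3
    have ha : a = 1 := by
      have h4 : (u * v) * a = (u * v) * 1 := by linear_combination h3
      exact mul_left_cancel₀ (mul_ne_zero hu hv) h4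
    refine ⟨d, ?_⟩
    rw [hd, ha, C_1, one_mul]

end Pool.Agent.T2h61.FL.FLK
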