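import Pool.Agent.T2h61.FL.Stm

/-! The restriction to the subalgebra generated by the other variables (FLR). -/

set_option autoImplicit false

namespace Pool.Agent.T2h61.FL.FLR

open MvPolynomial

section
variable {R : Type} [CommRing R] {n : ℕ}

/-- the inclusion -/
noncomputable def em (R : Type) [CommRing R] (n : ℕ) :
    MvPolynomial (Fin n) R →ₐ[R] MvPolynomial (Fin (n + 1)) R := rename Fin.succ

theorem em_inj : Function.Injective (em R n) := rename_injective _ (Fin.succ_injective n)

theorem adj_le : Algebra.adjoin R ((X : Fin (n + 1) → MvPolynomial (Fin (n + 1)) R) ''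
    {l : Fin (n + 1) | 1 ≤ (l : ℕ)}) ≤ (em R n).range := by
  apply Algebra.adjoin_le
  rintro p ⟨l, hl, rfl⟩
  have h0 : l ≠ 0 := by
    rintro rfl
    simp at hl
  obtain ⟨j, rfl⟩ := Fin.exists_succ_eq.2 h0
  exact ⟨X j, by unfold em; exact rename_X _ _⟩

theorem maps (h : MvPolynomial (Fin (n + 1)) R →ₐ[R] MvPolynomial (Fin (n + 1)) R)
    (hh : ∀ j : Fin n, h (X j.succ) ∈ (em R n).range) (u : MvPolynomial (Fin n) R) :
    h (em R n u) ∈ (em R n).range := by
  induction u using MvPolynomial.induction_on with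
  | C r =>
    have h1 : h (em R n (C r)) = em R n (C r) := by
      have h2 : em R n (C r) = algebraMap R (MvPolynomial (Fin (n + 1)) R) r := by
        unfold em
        rw [rename_C]
        rfl
      rw [h2, AlgHom.commutes]
    rw [h1]
    exact ⟨C r, rfl⟩
  | add p q hp hq =>
    rw [map_add, map_add]
    exact add_mem hp hq
  | mul_X p i hp =>
    rw [map_mul, map_mul]
    refine mul_mem hp ?_
    have h1 : em R n (X i) = X i.succ := by
      unfold em
      exact rename_X _ _
    rw [h1]
    exact hh i

/-- the restriction -/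
noncomputable def res (h : MvPolynomial (Fin (n + 1)) R →ₐ[R] MvPolynomial (Fin (n + 1)) R)
    (hh : ∀ u, h (em R n u) ∈ (em R n).range) :
    MvPolynomial (Fin n) R →ₐ[R] MvPolynomial (Fin n) R :=
  ((AlgEquiv.ofInjective (em R n) em_inj).symm :
    (em R n).range →ₐ[R] MvPolynomial (Fin n) R).comp
    ((h.comp (em R n)).codRestrict (em R n).range hh)

theorem em_res (h : MvPolynomial (Fin (n + 1)) R →ₐ[R] MvPolynomial (Fin (n + 1)) R)
    (hh : ∀ u, h (em R n u) ∈ (em R n).range) (u : MvPolynomial (Fin n) R) :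
    em R n (res h hh u) = h (em R n u) := by
  have h1 : res h hh u = (AlgEquiv.ofInjective (em R n) em_inj).symm ⟨h (em R n u), hh u⟩ := rfl
  have h2 : ((AlgEquiv.ofInjective (em R n) em_inj) (res h hh u)) = ⟨h (em R n u), hh u⟩ := by
    rw [h1, AlgEquiv.apply_symm_apply]
  have h3 := congrArg Subtype.val h2
  rw [AlgEquiv.ofInjective_apply] at h3
  exact h3

theorem fs_em (u : MvPolynomial (Fin n) R) :
    finSuccEquiv R n (em R n u) = Polynomial.C u := by
  induction u using MvPolynomial.induction_on with
  | C r =>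
    unfold em
    rw [rename_C]
    simp [finSuccEquiv_apply]
  | add p q hp hq => rw [map_add, map_add, hp, hq, Polynomial.C_add]
  | mul_X p i hp =>
    rw [map_mul, map_mul, hp, Polynomial.C_mul]
    congr 1
    unfold em
    rw [rename_X, finSuccEquiv_X_succ]

/-- the automorphism over the smaller ring -/
noncomputable def big (h : MvPolynomial (Fin (n + 1)) R ≃ₐ[R] MvPolynomial (Fin (n + 1)) R)
    (hh : ∀ u, h (em R n u) = em R n u) :
    Polynomial (MvPolynomial (Fin n) R) ≃ₐ[MvPolynomial (Fin n) R]
      Polynomial (MvPolynomial (Fin n) R) :=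
  AlgEquiv.ofRingEquiv (f := ((finSuccEquiv R n).symm.toRingEquiv.trans
    (h.toRingEquiv.trans (finSuccEquiv R n).toRingEquiv))) (by
      intro u
      have h1 : (finSuccEquiv R n).symm (Polynomial.C u) = em R n u := by
        rw [← fs_em, AlgEquiv.symm_apply_apply]
      have h2 : algebraMap (MvPolynomial (Fin n) R) (Polynomial (MvPolynomial (Fin n) R)) u =
        Polynomial.C u := rfl
      rw [h2]
      have h3 : (finSuccEquiv R n) (h ((finSuccEquiv R n).symm (Polynomial.C u))) =
        Polynomial.C u := by rw [h1, hh, fs_em]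
      exact h3)

theorem big_apply (h : MvPolynomial (Fin (n + 1)) R ≃ₐ[R] MvPolynomial (Fin (n + 1)) R)
    (hh : ∀ u, h (em R n u) = em R n u) (p : Polynomial (MvPolynomial (Fin n) R)) :
    big h hh p = finSuccEquiv R n (h ((finSuccEquiv R n).symm p)) := rfl

end

theorem t_FLR : S_FLR := by
  intro R _ _ n H hH
  have hmem : ∀ h ∈ H, ∀ u, h (em R n u) ∈ (em R n).range := by
    intro h hh u
    exact maps (h : MvPolynomial (Fin (n + 1)) R →ₐ[R] MvPolynomial (Fin (n + 1)) R)
      (fun j => adj_le (hH h hh j)) u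
  let rf : H → (MvPolynomial (Fin n) R →ₐ[R] MvPolynomial (Fin n) R) := fun h =>
    res (h.1 : MvPolynomial (Fin (n + 1)) R →ₐ[R] MvPolynomial (Fin (n + 1)) R) (hmem h.1 h.2)
  have hrf : ∀ (h : H) u, em R n (rf h u) = h.1 (em R n u) := fun h u => em_res _ _ u
  have hmul : ∀ h h' : H, (rf h).comp (rf h') = rf (h * h') := by
    intro h h'
    apply AlgHom.ext
    intro u
    apply em_inj
    rw [AlgHom.comp_apply, hrf, hrf, hrf]
    rfl
  have hone : rf 1 = AlgHom.id R _ := by
    apply AlgHom.ext
    intro u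
    apply em_inj
    rw [hrf]
    rfl
  have hinv : ∀ h : H, (rf h).comp (rf h⁻¹) = AlgHom.id R _ := by
    intro h
    rw [hmul, mul_inv_cancel, hone]
  have hinv' : ∀ h : H, (rf h⁻¹).comp (rf h) = AlgHom.id R _ := by
    intro h
    rw [hmul, inv_mul_cancel, hone]
  let r : H →* (MvPolynomial (Fin n) R ≃ₐ[R] MvPolynomial (Fin n) R) :=
    { toFun := fun h => AlgEquiv.ofAlgHom (rf h) (rf h⁻¹) (hinv h) (hinv' h)
      map_one' := by
        apply AlgEquiv.ext
        intro u
        have h1 := AlgHom.congr_fun hone u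
        exact h1
      map_mul' := by
        intro h h'
        apply AlgEquiv.ext
        intro u
        have h1 := AlgHom.congr_fun (hmul h h') u
        exact h1.symm }
  have hr : ∀ (h : H) u, em R n (r h u) = h.1 (em R n u) := hrf
  refine ⟨r, hr, ?_⟩
  have hk : ∀ (k : r.ker) u, k.1.1 (em R n u) = em R n u := by
    intro k u
    have h1 : r k.1 = 1 := k.2
    rw [← hr, h1]
    rfl
  let f : r.ker →* (Polynomial (MvPolynomial (Fin n) R) ≃ₐ[MvPolynomial (Fin n) R]
      Polynomial (MvPolynomial (Fin n) R)) :=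
    { toFun := fun k => big k.1.1 (hk k)
      map_one' := by
        apply AlgEquiv.ext
        intro p
        rw [big_apply]
        have h1 : (((1 : r.ker).1 : H).1 ((finSuccEquiv R n).symm p)) =
          (finSuccEquiv R n).symm p := rfl
        rw [h1, AlgEquiv.apply_symm_apply]
        rfl
      map_mul' := by
        intro k k'
        apply AlgEquiv.ext
        intro p
        rw [AlgEquiv.mul_apply, big_apply, big_apply, big_apply, AlgEquiv.symm_apply_apply]
        rfl }
  refine ⟨f, ?_⟩
  intro k k' hkk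
  apply Subtype.ext
  apply Subtype.ext
  apply AlgEquiv.ext
  intro p
  have h1 := AlgEquiv.congr_fun hkk (finSuccEquiv R n p)
  have h2 : big k.1.1 (hk k) (finSuccEquiv R n p) = big k'.1.1 (hk k') (finSuccEquiv R n p) := h1
  rw [big_apply, big_apply, AlgEquiv.symm_apply_apply] at h2
  exact (finSuccEquiv R n).injective h2

end Pool.Agent.T2h61.FL.FLR
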