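import Pool.Agent.T2h61.FL.Stm

/-!
# Project FL, task SVX (helper67): extensions with solvable kernel
-/

set_option autoImplicit false

namespace Pool.Agent.T2h61.FL.SVX

open Pool.Agent.Y110.FJ (ClosedE)
open scoped commutatorElement

theorem aux (C : ∀ (G : Type) [Group G], Prop) (hC : ClosedE C)
    (hM : ∀ (G : Type) [Group G], derivedSeries G 2 = ⊥ → C G) (n : ℕ) :
    ∀ (G Q : Type) [Group G] [Group Q] (π : G →* Q), C Q → derivedSeries π.ker n = ⊥ → C G := by
  induction n with
  | zero =>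
    intro G Q _ _ π hQ h
    rw [derivedSeries_zero] at h
    refine hC.base.of_injective _ _ π ((MonoidHom.ker_eq_bot_iff π).1 ?_) hQ
    rw [eq_bot_iff]
    intro x hx
    have h1 : (⟨x, hx⟩ : π.ker) ∈ (⊤ : Subgroup π.ker) := trivial
    rw [h, Subgroup.mem_bot] at h1
    exact congrArg Subtype.val h1
  | succ n ih =>
    intro G Q _ _ π hQ h
    have hch : (derivedSeries π.ker n).Characteristic := derivedSeries_characteristic _ n
    have hN : ((derivedSeries π.ker n).map π.ker.subtype).Normal :=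
      ConjAct.normal_of_characteristic_of_normal
    have hle : ∀ x ∈ (derivedSeries π.ker n).map π.ker.subtype, π x = 1 := by
      rintro x ⟨y, _, rfl⟩
      exact y.2
    let π' : G ⧸ (derivedSeries π.ker n).map π.ker.subtype →* Q := QuotientGroup.lift _ π hle
    have hπ' : ∀ g : G, π' (QuotientGroup.mk' _ g) = π g := fun g => rfl
    let f : π.ker →* π'.ker :=
      ((QuotientGroup.mk' ((derivedSeries π.ker n).map π.ker.subtype)).comp π.ker.subtype).codRestrict
        π'.ker fun x => x.2
    have hf : Function.Surjective f := by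
      rintro ⟨y, hy⟩
      obtain ⟨g, rfl⟩ := QuotientGroup.mk'_surjective _ y
      exact ⟨⟨g, hy⟩, rfl⟩
    have h0 : derivedSeries π'.ker n = ⊥ := by
      rw [← map_derivedSeries_eq hf n, eq_bot_iff]
      rintro _ ⟨y, hy, rfl⟩
      rw [Subgroup.mem_bot]
      apply Subtype.ext
      exact (QuotientGroup.eq_one_iff (y : G)).2 ⟨y, hy, rfl⟩
    have h1 : C (G ⧸ (derivedSeries π.ker n).map π.ker.subtype) := ih _ Q π' hQ h0
    refine Pool.Agent.T2h61.GT.C_abext hC hM (QuotientGroup.mk' _) h1 ?_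
    intro x y hx hy
    obtain ⟨a, ha, rfl⟩ := (QuotientGroup.eq_one_iff x).1 hx
    obtain ⟨b, hb, rfl⟩ := (QuotientGroup.eq_one_iff y).1 hy
    have h2 : ⁅a, b⁆ ∈ ⁅derivedSeries π.ker n, derivedSeries π.ker n⁆ :=
      Subgroup.commutator_mem_commutator ha hb
    rw [← derivedSeries_succ, h, Subgroup.mem_bot] at h2
    have h3 : a * b = b * a := commutatorElement_eq_one_iff_mul_comm.1 h2
    rw [← map_mul, h3, map_mul]

theorem t_SVX : S_SVX := by
  intro C hC hM G Q _ _ π hQ hn
  obtain ⟨n, hn⟩ := hn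
  exact aux C hC hM n G Q π hQ hn

end Pool.Agent.T2h61.FL.SVX
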