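import Pool.Agent.T2h61.PN.Stm

/-!
# Automorphisms which preserve a flag of subalgebras: statements of the tasks

Owner helper61.
-/

set_option autoImplicit false

namespace Pool.Agent.T2h61.FL

open MvPolynomial
open Pool.Agent.Y110.FJ (ClosedE)

/-- **SVX** (50 lines). Extensions with solvable kernel. -/
def S_SVX : Prop := ∀ (C : ∀ (G : Type) [Group G], Prop), ClosedE C →
  (∀ (G : Type) [Group G], derivedSeries G 2 = ⊥ → C G) →
  ∀ (G Q : Type) [Group G] [Group Q] (π : G →* Q), C Q → (∃ n, derivedSeries π.ker n = ⊥) → C G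

/-- **FLK** (80 lines). The automorphisms of `B[z]` over a domain `B`. -/
def S_FLK : Prop := ∀ (B : Type) [CommRing B] [IsDomain B],
  derivedSeries (Polynomial B ≃ₐ[B] Polynomial B) 2 = ⊥

/-- **FLR** (120 lines). The restriction to the subalgebra generated by the other variables. -/
def S_FLR : Prop := ∀ (R : Type) [CommRing R] [IsDomain R] (n : ℕ)
  (H : Subgroup (MvPolynomial (Fin (n + 1)) R ≃ₐ[R] MvPolynomial (Fin (n + 1)) R)),
  (∀ h ∈ H, ∀ j : Fin n, h (X j.succ) ∈ Algebra.adjoin R (X '' {l : Fin (n + 1) | 1 ≤ (l : ℕ)})) →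
  ∃ r : H →* (MvPolynomial (Fin n) R ≃ₐ[R] MvPolynomial (Fin n) R),
    (∀ (h : H) (u : MvPolynomial (Fin n) R),
      rename Fin.succ (r h u) = (h : MvPolynomial (Fin (n + 1)) R ≃ₐ[R] MvPolynomial (Fin (n + 1)) R)
        (rename Fin.succ u)) ∧
    ∃ f : r.ker →* (Polynomial (MvPolynomial (Fin n) R) ≃ₐ[MvPolynomial (Fin n) R]
      Polynomial (MvPolynomial (Fin n) R)), Function.Injective f

end Pool.Agent.T2h61.FL
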